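import Pool.Agent.Y680.CU.Crit
import Pool.Agent.Y680.CU.Cover

set_option autoImplicit false

/-! # `δ_χ(H,p) ≥ 1/2` for graphs containing a graph with two centres

A criterion for the chromatic threshold of `3`-chromatic graphs in the range
`n^{-1/2} ≪ p ≪ n^{-(v-3)/(e-2)}`. Whenever the vertices of a subgraph `H₀` of `H` are divided into
three classes as in the natural construction (a small graph of large girth and chromatic number,
and two halves of the remaining vertices), two given vertices of `H₀`, its centres, lie in the first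
class; `v` and `e` are the numbers of vertices and edges of `H₀`. -/

namespace Pool.Agent.Results.MP_46505f_co.TwoCentres

open Filter Topology Pool.Agent.Y680.CT.Defs

/-- An admissible division of the vertices of `H` into the classes `0`, `1`, `2`: the classes `1` and
`2` are independent sets, there is no edge between the classes `0` and `1`, and every vertex of
class `2` has at most one neighbour in class `0`. -/
structure Division {V : Type} (H : SimpleGraph V) (c : V → Fin 3) : Prop where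
  one : ∀ a b, c a = 1 → c b = 1 → ¬ H.Adj a b
  two : ∀ a b, c a = 2 → c b = 2 → ¬ H.Adj a b
  zero_one : ∀ a b, c a = 0 → c b = 1 → ¬ H.Adj a b
  unique : ∀ y a b, c y = 2 → c a = 0 → c b = 0 → H.Adj y a → H.Adj y b → a = b

/-- `t₁` and `t₂` are two centres of `H`: they are different, both are in class `0` in every
admissible division, and `t₁` has a neighbour `l ≠ t₂`. -/
structure Centres {V : Type} (H : SimpleGraph V) (t₁ t₂ l : V) : Prop where
  adj : H.Adj t₁ l
  ne : t₁ ≠ t₂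
  ne' : t₂ ≠ l
  division : ∀ c : V → Fin 3, Division H c → c t₁ = 0 ∧ c t₂ = 0

/-- with probability tending to `1` the random graph `G(n, p n)` has an `H`-free spanning subgraph of
minimum degree at least `d p n` which is not `C`-colourable -/
def Whp {V : Type} (H : SimpleGraph V) (p : ℕ → ℝ) (d : ℝ) (C : ℕ) : Prop :=
  Tendsto (fun n : ℕ => gnp n (p n) (fun Γ => ∃ G : SimpleGraph (Fin n), G ≤ Γ ∧
    ¬ H.IsContained G ∧ (∀ v, d * p n * n ≤ ((G.neighborSet v).ncard : ℝ)) ∧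
    ¬ G.Colorable C)) atTop (𝓝 1)

lemma struct_of_centres {V : Type} {H : SimpleGraph V} {t₁ t₂ l : V} (h : Centres H t₁ t₂ l) :
    Pool.Agent.Y680.CT.Struct H t₁ t₂ := by
  intro c hc h1 h2
  have hval : ∀ a k, (⟨c a, by have := hc a; omega⟩ : Fin 3) = k ↔ c a = k.val := by
    intro a k
    exact Fin.ext_iff
  have hd : Division H (fun a => (⟨c a, by have := hc a; omega⟩ : Fin 3)) := by
    refine ⟨?_, ?_, ?_, ?_⟩
    · intro a b ha hb hab
      rw [hval] at ha hb
      exact (h1 a b hab).2.2.1 ⟨ha, hb⟩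
    · intro a b ha hb hab
      rw [hval] at ha hb
      exact (h1 a b hab).2.2.2 ⟨ha, hb⟩
    · intro a b ha hb hab
      rw [hval] at ha hb
      exact (h1 a b hab).1 ⟨ha, hb⟩
    · intro y a b hy ha hb hya hyb
      rw [hval] at hy ha hb
      by_contra hne
      exact h2 y a b hne hya hyb ⟨hy, ha, hb⟩
  obtain ⟨g1, g2⟩ := h.division _ hd
  rw [hval] at g1 g2
  exact ⟨g1, g2⟩

lemma centres_of_struct {V : Type} {H : SimpleGraph V} {t₁ t₂ l : V}
    (h : Pool.Agent.Y680.CT.Struct H t₁ t₂) (hl : H.Adj t₁ l) (h12 : t₁ ≠ t₂) (hl2 : t₂ ≠ l) :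
    Centres H t₁ t₂ l := by
  refine ⟨hl, h12, hl2, ?_⟩
  intro c hc
  have key := h (fun a => (c a).val) (fun a => by have := (c a).2; omega) ?_ ?_
  · exact ⟨Fin.ext key.1, Fin.ext key.2⟩
  · intro a b hab
    refine ⟨?_, ?_, ?_, ?_⟩
    · rintro ⟨ha, hb⟩
      exact hc.zero_one a b (Fin.ext ha) (Fin.ext hb) hab
    · rintro ⟨ha, hb⟩
      exact hc.zero_one b a (Fin.ext hb) (Fin.ext ha) hab.symm
    · rintro ⟨ha, hb⟩
      exact hc.one a b (Fin.ext ha) (Fin.ext hb) hab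
    · rintro ⟨ha, hb⟩
      exact hc.two a b (Fin.ext ha) (Fin.ext hb) hab
  · rintro y a b hne hya hyb ⟨hy, ha, hb⟩
    exact hne (hc.unique y a b (Fin.ext hy) (Fin.ext ha) (Fin.ext hb) hya hyb)

/-- (1) Let `H₀` be a finite graph with `v` vertices and `e ≥ 3` edges which has two centres, and let
`H` be a graph containing `H₀`. If `n^{-1/2} ≪ p ≪ n^{-(v-3)/(e-2)}`, then `δ_χ(H,p) ≥ 1/2`; moreover
for all `d < 1/2` and `C`, with probability tending to `1` the random graph `G(n,p)` has an `H`-free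
spanning subgraph of minimum degree at least `d p n` and chromatic number larger than `C`.
(2) For every `θ` with `0 < θ < 1/2` there is a graph `H` of chromatic number `3`, cloud-forest and
not thundercloud-forest, with both conclusions for `p = n^{-θ}`. -/
theorem result :
    (∀ (V W : Type) (_ : Fintype W) (H : SimpleGraph V) (H₀ : SimpleGraph W) (t₁ t₂ l : W),
      Centres H₀ t₁ t₂ l → H₀.IsContained H → ∀ v e : ℕ, Fintype.card W = v →
      H₀.edgeSet.ncard = e → 3 ≤ e → ∀ p : ℕ → ℝ, (∀ n, 0 < p n ∧ p n ≤ 1) →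
      Tendsto (fun n : ℕ => (n : ℝ) ^ (-(1 / 2) : ℝ) / p n) atTop (𝓝 0) →
      Tendsto (fun n : ℕ => p n / (n : ℝ) ^ (-(((v : ℝ) - 3) / ((e : ℝ) - 2)))) atTop (𝓝 0) →
      1 / 2 ≤ chromThreshold H p ∧ ∀ d : ℝ, d < 1 / 2 → ∀ C : ℕ, Whp H p d C) ∧
    ∀ θ : ℝ, 0 < θ → θ < 1 / 2 → ∃ (V : Type) (_ : Fintype V) (H : SimpleGraph V),
      H.chromaticNumber = 3 ∧ CloudForest H ∧ ¬ ThundercloudForest H ∧
      ∀ p : ℕ → ℝ, (∀ n, 0 < p n ∧ p n ≤ 1) → (∀ n : ℕ, 1 ≤ n → p n = (n : ℝ) ^ (-θ)) →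
        1 / 2 ≤ chromThreshold H p ∧ ∀ d : ℝ, d < 1 / 2 → ∀ C : ℕ, Whp H p d C := by
  have part1 : ∀ (V W : Type) (_ : Fintype W) (H : SimpleGraph V) (H₀ : SimpleGraph W)
      (t₁ t₂ l : W), Centres H₀ t₁ t₂ l → H₀.IsContained H → ∀ v e : ℕ, Fintype.card W = v →
      H₀.edgeSet.ncard = e → 3 ≤ e → ∀ p : ℕ → ℝ, (∀ n, 0 < p n ∧ p n ≤ 1) →
      Tendsto (fun n : ℕ => (n : ℝ) ^ (-(1 / 2) : ℝ) / p n) atTop (𝓝 0) →
      Tendsto (fun n : ℕ => p n / (n : ℝ) ^ (-(((v : ℝ) - 3) / ((e : ℝ) - 2)))) atTop (𝓝 0) →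
      1 / 2 ≤ chromThreshold H p ∧ ∀ d : ℝ, d < 1 / 2 → ∀ C : ℕ, Whp H p d C := by
    intro V W _ H H₀ t₁ t₂ l hc hcon v e hv he he3 p hp h1 h2
    have hv3 : 3 ≤ v := by
      classical
      rw [← hv]
      have hcard : ({t₁, t₂, l} : Finset W).card = 3 :=
        Finset.card_eq_three.2 ⟨t₁, t₂, l, hc.ne, hc.adj.ne, hc.ne', rfl⟩
      rw [← hcard]
      exact Finset.card_le_univ _
    obtain ⟨vv, rfl⟩ : ∃ vv, v = vv + 3 := ⟨v - 3, by omega⟩
    obtain ⟨ee, rfl⟩ : ∃ ee, e = ee + 2 := ⟨e - 2, by omega⟩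
    have e1 : (((vv + 3 : ℕ) : ℝ) - 3) / (((ee + 2 : ℕ) : ℝ) - 2) = (vv : ℝ) / ee := by
      push_cast
      congr 1 <;> ring
    rw [e1] at h2
    exact Pool.Agent.Y680.CU.crit (struct_of_centres hc) hc.adj hc.ne hc.ne' hcon hv he (by omega)
      p hp h1 h2
  refine ⟨part1, ?_⟩
  intro θ h0 h1
  have hcmp : ∀ c : ℝ, c < 0 → Tendsto (fun n : ℕ => (n : ℝ) ^ c) atTop (𝓝 0) := by
    intro c hc
    have := (tendsto_rpow_neg_atTop (y := -c) (by linarith)).comp
      (tendsto_natCast_atTop_atTop (R := ℝ))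
    rw [neg_neg] at this
    exact this
  obtain ⟨L, K, hL, hK, hKL, g1, -⟩ := Pool.Agent.Y680.CU.cover θ h0 h1
  obtain ⟨a, ha, haL⟩ : ∃ a : Bool → ℕ, (∀ i, 2 ≤ a i) ∧ a false + a true = L := by
    refine ⟨fun b => if b then L - L / 2 else L / 2, ?_, ?_⟩
    · intro i
      cases i
      · show 2 ≤ L / 2
        omega
      · show 2 ≤ L - L / 2
        omega
    · show L / 2 + (L - L / 2) = L
      omega
  refine ⟨Pool.Agent.Y680.CU.HV a K, inferInstance, Pool.Agent.Y680.CU.HN a K,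
    Pool.Agent.Y680.CU.chrom_HN ha hK, Pool.Agent.Y680.CU.cloudForest_HN,
    Pool.Agent.Y680.CU.not_thundercloud ha hK, ?_⟩
  intro p hp hpθ
  have hc : Centres (Pool.Agent.Y680.CU.HN a K) (Pool.Agent.Y680.CU.tt false)
      (Pool.Agent.Y680.CU.tt true)
      (Pool.Agent.Y680.CU.lf ⟨false, ⟨0, by have := ha false; omega⟩⟩) := by
    refine centres_of_struct (Pool.Agent.Y680.CU.struct_HN ha hK) rfl ?_ ?_
    · intro h
      exact absurd (Sum.inl.inj h) (by decide)
    · exact fun h => nomatch h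
  have hcard : Fintype.card (Pool.Agent.Y680.CU.HV a K) = L + K + 2 := by
    rw [Pool.Agent.Y680.CU.card_HV, haL]
  have hedge : (Pool.Agent.Y680.CU.HN a K).edgeSet.ncard = 1 + (L + L * K) := by
    rw [Pool.Agent.Y680.CU.edges_HN, haL]
  have hev : ∀ c : ℝ, ∀ᶠ n : ℕ in atTop, (n : ℝ) ^ (c + θ) = (n : ℝ) ^ c / p n := by
    intro c
    filter_upwards [eventually_ge_atTop 1] with n hn
    have hn1 : (0 : ℝ) < n := by exact_mod_cast hn
    rw [hpθ n hn, ← Real.rpow_sub hn1]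
    congr 1
    ring
  refine part1 _ _ _ _ _ _ _ _ hc SimpleGraph.IsContained.rfl _ _ hcard hedge (by omega) p hp
    ((hcmp (-(1 / 2) + θ) (by linarith)).congr' (hev _)) ?_
  refine (hcmp (-θ + ((L : ℝ) + K - 1) / ((L : ℝ) * ((K : ℝ) + 1) - 1))
    (by linarith)).congr' ?_
  filter_upwards [eventually_ge_atTop 1] with n hn
  have hn1 : (0 : ℝ) < n := by exact_mod_cast hn
  rw [hpθ n hn, ← Real.rpow_sub hn1]
  congr 1
  push_cast
  have e1 : (L : ℝ) + K + 2 - 3 = (L : ℝ) + K - 1 := by ring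
  have e2 : 1 + ((L : ℝ) + L * K) - 2 = (L : ℝ) * ((K : ℝ) + 1) - 1 := by ring
  rw [e1, e2]
  ring

end Pool.Agent.Results.MP_46505f_co.TwoCentres
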